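import Pool.Agent.W907.SG.All

/-!
# Edge subdivision and the Singer conjecture

Let `L` be a flag complex and `e` an edge of `L` with link `Lk e`.  If the reduced `ℓ²`-homology of the right-angled
Coxeter group of `L` vanishes in degree `i` and that of the group of `Lk e` vanishes in degree `i - 1`, then it
vanishes in degree `i` for the stellar subdivision of `L` at `e`.
-/

namespace Pool.Agent.Results.MP_984acc_gt.EdgeSubdivisionHeredity

open Pool.Agent.W907.SG

/-- Heredity of `ℓ²`-vanishing under edge subdivision, for arbitrary flag complexes. -/
theorem result : ∀ (V : Type) [Fintype V] [LinearOrder V] (G : SimpleGraph V) (s t : V)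
    [Fintype ↥(G.neighborSet s ∩ G.neighborSet t)] [LinearOrder (Option V)] (i : ℕ), G.Adj s t →
    L2Van G i → (∀ j, i = j + 1 → L2Van (G.induce (G.neighborSet s ∩ G.neighborSet t)) j) →
    L2Van (esub G s t) i :=
  l2sub

end Pool.Agent.Results.MP_984acc_gt.EdgeSubdivisionHeredity
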